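import Pool.Agent.Helper499.WBA

/-!
# A closed unital self-adjoint subalgebra of `ℓ^∞` whose dual has a weak star basis
-/

set_option autoImplicit false

namespace Pool.Agent.Y529.WK

open Filter Topology Finset BoundedContinuousFunction Pool.Agent.Helper499.WB

section
variable {T Γ : Type} [TopologicalSpace T] [DiscreteTopology T] (𝕜 : Type) [RCLike 𝕜]

theorem one_app (t : T) : (1 : T →ᵇ 𝕜) t = 1 := rfl

theorem ind_mul (S S' : Set T) : ind 𝕜 S * ind 𝕜 S' = ind 𝕜 (S ∩ S') := by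
  classical
  ext t
  rw [BoundedContinuousFunction.mul_apply, ind_apply, ind_apply, ind_apply]
  by_cases h : t ∈ S <;> by_cases h' : t ∈ S' <;> simp [h, h']

theorem ind_star (S : Set T) : star (ind 𝕜 S) = ind 𝕜 S := by
  classical
  ext t
  rw [BoundedContinuousFunction.star_apply, ind_apply]
  by_cases h : t ∈ S <;> simp [h]

theorem ind_finset (D : TD T Γ) (F : Finset T) :
    ind 𝕜 (F : Set T) ∈ Submodule.span 𝕜 (Gen 𝕜 D) := by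
  classical
  have h : ind 𝕜 (F : Set T) = ∑ t ∈ F, ind 𝕜 {t} := by
    ext s
    rw [BoundedContinuousFunction.sum_apply, ind_apply]
    simp only [ind_apply, Set.mem_singleton_iff]
    rw [Finset.sum_ite_eq]
    simp
  rw [h]
  exact Submodule.sum_mem _ fun t _ => Submodule.subset_span (Or.inl ⟨t, rfl⟩)

theorem ind_finite (D : TD T Γ) {S : Set T} (hS : S.Finite) :
    ind 𝕜 S ∈ Submodule.span 𝕜 (Gen 𝕜 D) := by
  have h := ind_finset 𝕜 D hS.toFinset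
  rwa [hS.coe_toFinset] at h

theorem gen_mul (D : TD T Γ) {x y : T →ᵇ 𝕜} (hx : x ∈ Gen 𝕜 D) (hy : y ∈ Gen 𝕜 D) :
    x * y ∈ Submodule.span 𝕜 (Gen 𝕜 D) := by
  rcases hx with ⟨t, rfl⟩ | ⟨γ, rfl⟩ <;> rcases hy with ⟨s, rfl⟩ | ⟨γ', rfl⟩ <;> rw [ind_mul]
  · exact ind_finite 𝕜 D ((Set.finite_singleton t).subset Set.inter_subset_left)
  · exact ind_finite 𝕜 D ((Set.finite_singleton t).subset Set.inter_subset_left)
  · exact ind_finite 𝕜 D ((Set.finite_singleton s).subset Set.inter_subset_right)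
  · by_cases h : γ = γ'
    · subst h
      rw [Set.inter_self]
      exact Submodule.subset_span (Or.inr ⟨γ, rfl⟩)
    · exact ind_finite 𝕜 D (D.AD γ γ' h)

theorem span_mul (D : TD T Γ) {x y : T →ᵇ 𝕜} (hx : x ∈ Submodule.span 𝕜 (Gen 𝕜 D))
    (hy : y ∈ Submodule.span 𝕜 (Gen 𝕜 D)) : x * y ∈ Submodule.span 𝕜 (Gen 𝕜 D) := by
  induction hx using Submodule.span_induction with
  | mem x hx =>
    induction hy using Submodule.span_induction with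
    | mem y hy => exact gen_mul 𝕜 D hx hy
    | zero => rw [mul_zero]; exact zero_mem _
    | add y z _ _ h1 h2 => rw [mul_add]; exact add_mem h1 h2
    | smul c y _ h => rw [mul_smul_comm]; exact Submodule.smul_mem _ _ h
  | zero => rw [zero_mul]; exact zero_mem _
  | add x z _ _ h1 h2 => rw [add_mul]; exact add_mem h1 h2
  | smul c x _ h => rw [smul_mul_assoc]; exact Submodule.smul_mem _ _ h

theorem span_star (D : TD T Γ) {x : T →ᵇ 𝕜} (hx : x ∈ Submodule.span 𝕜 (Gen 𝕜 D)) :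
    star x ∈ Submodule.span 𝕜 (Gen 𝕜 D) := by
  induction hx using Submodule.span_induction with
  | mem x hx =>
    rcases hx with ⟨t, rfl⟩ | ⟨γ, rfl⟩ <;> rw [ind_star]
    · exact Submodule.subset_span (Or.inl ⟨t, rfl⟩)
    · exact Submodule.subset_span (Or.inr ⟨γ, rfl⟩)
  | zero => rw [star_zero]; exact zero_mem _
  | add x z _ _ h1 h2 => rw [star_add]; exact add_mem h1 h2
  | smul c x _ h => rw [star_smul]; exact Submodule.smul_mem _ _ h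

theorem EE_mul (D : TD T Γ) {x y : T →ᵇ 𝕜} (hx : x ∈ EE 𝕜 D) (hy : y ∈ EE 𝕜 D) :
    x * y ∈ EE 𝕜 D :=
  map_mem_closure₂ continuous_mul hx hy fun _ ha _ hb => span_mul 𝕜 D ha hb

theorem EE_star (D : TD T Γ) {x : T →ᵇ 𝕜} (hx : x ∈ EE 𝕜 D) : star x ∈ EE 𝕜 D :=
  map_mem_closure continuous_star hx fun _ ha => span_star 𝕜 D ha

theorem EE_closed (D : TD T Γ) : IsClosed (EE 𝕜 D : Set (T →ᵇ 𝕜)) :=
  Submodule.isClosed_topologicalClosure (Submodule.span 𝕜 (Gen 𝕜 D))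

theorem supp (D : TD T Γ) {y : T →ᵇ 𝕜} (hy : y ∈ Submodule.span 𝕜 (Gen 𝕜 D)) :
    ∃ (F : Set T) (G : Finset Γ), F.Finite ∧ ∀ t, t ∉ F → (∀ γ ∈ G, t ∉ D.A γ) → y t = 0 := by
  classical
  induction hy using Submodule.span_induction with
  | mem x hx =>
    rcases hx with ⟨t, rfl⟩ | ⟨γ, rfl⟩
    · exact ⟨{t}, ∅, Set.finite_singleton t, fun s hs _ => ind_zero 𝕜 hs⟩
    · exact ⟨∅, {γ}, Set.finite_empty, fun s _ hs => ind_zero 𝕜 (hs γ (Finset.mem_singleton_self γ))⟩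
  | zero => exact ⟨∅, ∅, Set.finite_empty, fun _ _ _ => rfl⟩
  | add x z _ _ h1 h2 =>
    obtain ⟨F1, G1, hF1, h1⟩ := h1
    obtain ⟨F2, G2, hF2, h2⟩ := h2
    refine ⟨F1 ∪ F2, G1 ∪ G2, hF1.union hF2, fun t ht hG => ?_⟩
    rw [BoundedContinuousFunction.add_apply,
      h1 t (fun h => ht (Or.inl h)) (fun γ hγ => hG γ (Finset.mem_union_left _ hγ)),
      h2 t (fun h => ht (Or.inr h)) (fun γ hγ => hG γ (Finset.mem_union_right _ hγ)), add_zero]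
  | smul c x _ h =>
    obtain ⟨F, G, hF, h⟩ := h
    exact ⟨F, G, hF, fun t ht hG => by
      rw [BoundedContinuousFunction.smul_apply, h t ht hG, smul_zero]⟩

theorem one_notMem (D : TD T Γ) [Infinite Γ] : (1 : T →ᵇ 𝕜) ∉ EE 𝕜 D := by
  intro h1
  obtain ⟨y, hy, hd⟩ := Metric.mem_closure_iff.1 h1 1 one_pos
  obtain ⟨F, G, hF, hz⟩ := supp 𝕜 D hy
  obtain ⟨γ', hγ'⟩ := Infinite.exists_notMem_finset G
  have hfin : (F ∪ ⋃ γ ∈ G, (D.A γ' ∩ D.A γ)).Finite := by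
    refine hF.union (Set.Finite.biUnion G.finite_toSet fun γ hγ => D.AD γ' γ ?_)
    rintro rfl
    exact hγ' hγ
  have hinf : (Set.range (D.v γ')).Infinite := Set.infinite_range_of_injective (v_inj D γ')
  obtain ⟨t, ⟨i, rfl⟩, ht⟩ := hinf.exists_notMem_finite hfin
  have h2 : y (D.v γ' i) = 0 := by
    refine hz _ (fun h => ht (Or.inl h)) fun γ hγ h => ht (Or.inr ?_)
    exact Set.mem_biUnion hγ ⟨D.hA γ' i, h⟩
  have h3 := (1 - y).norm_coe_le_norm (D.v γ' i)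
  rw [BoundedContinuousFunction.sub_apply, h2, sub_zero, one_app,
    norm_one, ← dist_eq_norm] at h3
  exact absurd hd (not_lt.2 h3)

/-- a functional which vanishes on the space and is one at the constant one -/
theorem exists_phi (D : TD T Γ) [Infinite Γ] : ∃ φ : (T →ᵇ 𝕜) →L[𝕜] 𝕜, φ 1 = 1 ∧
    ∀ x ∈ EE 𝕜 D, φ x = 0 := by
  have hcl : IsClosed (EE 𝕜 D : Set (T →ᵇ 𝕜)) := EE_closed 𝕜 D
  have hne : (Submodule.Quotient.mk (1 : T →ᵇ 𝕜) : (T →ᵇ 𝕜) ⧸ EE 𝕜 D) ≠ 0 := by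
    rw [Ne, Submodule.Quotient.mk_eq_zero]
    exact one_notMem 𝕜 D
  have hnorm : ‖(Submodule.Quotient.mk (1 : T →ᵇ 𝕜) : (T →ᵇ 𝕜) ⧸ EE 𝕜 D)‖ ≠ 0 :=
    norm_ne_zero_iff.2 hne
  obtain ⟨g, _, hg⟩ := exists_dual_vector 𝕜 (Submodule.Quotient.mk (1 : T →ᵇ 𝕜) :
    (T →ᵇ 𝕜) ⧸ EE 𝕜 D) hnorm
  let G : (T →ᵇ 𝕜) →L[𝕜] 𝕜 := g.comp (EE 𝕜 D).mkQL
  have hG1 : G 1 ≠ 0 := by
    show g (Submodule.Quotient.mk (1 : T →ᵇ 𝕜) : (T →ᵇ 𝕜) ⧸ EE 𝕜 D) ≠ 0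
    rw [hg]
    exact_mod_cast hnorm
  refine ⟨(G 1)⁻¹ • G, ?_, fun x hx => ?_⟩
  · show (G 1)⁻¹ * G 1 = 1
    exact inv_mul_cancel₀ hG1
  · have h1 : (Submodule.Quotient.mk x : (T →ᵇ 𝕜) ⧸ EE 𝕜 D) = 0 := by
      rw [Submodule.Quotient.mk_eq_zero]
      exact hx
    show (G 1)⁻¹ * g (Submodule.Quotient.mk x : (T →ᵇ 𝕜) ⧸ EE 𝕜 D) = 0
    rw [h1, map_zero, mul_zero]

/-- the unital algebra -/
noncomputable def Alg (D : TD T Γ) : StarSubalgebra 𝕜 (T →ᵇ 𝕜) where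
  carrier := {x | ∃ c : 𝕜, x - c • (1 : T →ᵇ 𝕜) ∈ EE 𝕜 D}
  mul_mem' := by
    rintro x y ⟨c, hc⟩ ⟨d, hd⟩
    refine ⟨c * d, ?_⟩
    have e : x * y - (c * d) • (1 : T →ᵇ 𝕜) = (x - c • (1 : T →ᵇ 𝕜)) * (y - d • (1 : T →ᵇ 𝕜)) +
        c • (y - d • (1 : T →ᵇ 𝕜)) + d • (x - c • (1 : T →ᵇ 𝕜)) := by
      ext t
      simp only [BoundedContinuousFunction.sub_apply, BoundedContinuousFunction.add_apply,
        BoundedContinuousFunction.mul_apply, BoundedContinuousFunction.smul_apply,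
        one_app, smul_eq_mul]
      ring
    rw [e]
    exact add_mem (add_mem (EE_mul 𝕜 D hc hd) (Submodule.smul_mem _ _ hd)) (Submodule.smul_mem _ _ hc)
  one_mem' := ⟨1, by rw [one_smul, sub_self]; exact zero_mem _⟩
  add_mem' := by
    rintro x y ⟨c, hc⟩ ⟨d, hd⟩
    refine ⟨c + d, ?_⟩
    have e : x + y - (c + d) • (1 : T →ᵇ 𝕜) =
        (x - c • (1 : T →ᵇ 𝕜)) + (y - d • (1 : T →ᵇ 𝕜)) := by
      rw [add_smul]
      abel
    rw [e]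
    exact add_mem hc hd
  zero_mem' := ⟨0, by rw [zero_smul, sub_self]; exact zero_mem _⟩
  algebraMap_mem' := fun r => ⟨r, by
    rw [Algebra.algebraMap_eq_smul_one, sub_self]
    exact zero_mem _⟩
  star_mem' := by
    rintro x ⟨c, hc⟩
    refine ⟨star c, ?_⟩
    have h := EE_star 𝕜 D hc
    rwa [star_sub, star_smul, star_one] at h

theorem mem_Alg {D : TD T Γ} {x : T →ᵇ 𝕜} :
    x ∈ Alg 𝕜 D ↔ ∃ c : 𝕜, x - c • (1 : T →ᵇ 𝕜) ∈ EE 𝕜 D := Iff.rfl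

theorem mem_Alg_phi {D : TD T Γ} {φ : (T →ᵇ 𝕜) →L[𝕜] 𝕜} (h1 : φ 1 = 1)
    (h0 : ∀ x ∈ EE 𝕜 D, φ x = 0) {x : T →ᵇ 𝕜} :
    x ∈ Alg 𝕜 D ↔ x - φ x • (1 : T →ᵇ 𝕜) ∈ EE 𝕜 D := by
  constructor
  · rintro ⟨c, hc⟩
    have h2 := h0 _ hc
    rw [map_sub, map_smul, h1, smul_eq_mul, mul_one, sub_eq_zero] at h2
    rwa [h2]
  · exact fun h => ⟨_, h⟩

theorem Alg_closed (D : TD T Γ) [Infinite Γ] : IsClosed (Alg 𝕜 D : Set (T →ᵇ 𝕜)) := by
  obtain ⟨φ, h1, h0⟩ := exists_phi 𝕜 D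
  have e : (Alg 𝕜 D : Set (T →ᵇ 𝕜)) =
      (fun x : T →ᵇ 𝕜 => x - φ x • (1 : T →ᵇ 𝕜)) ⁻¹' (EE 𝕜 D : Set (T →ᵇ 𝕜)) := by
    ext x
    exact mem_Alg_phi 𝕜 h1 h0
  rw [e]
  refine (EE_closed 𝕜 D).preimage ?_
  exact continuous_id.sub (φ.continuous.smul continuous_const)

theorem EE_le_Alg (D : TD T Γ) {x : T →ᵇ 𝕜} (hx : x ∈ EE 𝕜 D) : x ∈ Alg 𝕜 D :=
  ⟨0, by rwa [zero_smul, sub_zero]⟩

theorem Alg_not_separable (D : TD T Γ) (hΓ : ¬ Countable Γ) :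
    ¬ TopologicalSpace.SeparableSpace (Alg 𝕜 D) := by
  intro h
  refine not_separable (𝕜 := 𝕜) D hΓ ?_
  have h1 : TopologicalSpace.IsSeparable (Alg 𝕜 D : Set (T →ᵇ 𝕜)) := by
    have h3 : TopologicalSpace.IsSeparable (Set.range (Subtype.val : Alg 𝕜 D → (T →ᵇ 𝕜))) :=
      TopologicalSpace.isSeparable_range continuous_subtype_val
    rwa [Subtype.range_coe] at h3
  have h2 : TopologicalSpace.IsSeparable (EE 𝕜 D : Set (T →ᵇ 𝕜)) :=
    h1.mono fun x hx => EE_le_Alg 𝕜 D hx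
  exact h2.separableSpace

end

/-- every functional has a unique pointwise expansion -/
def WSB (𝕜 : Type) [RCLike 𝕜] (E : Type) [NormedAddCommGroup E] [NormedSpace 𝕜 E] : Prop :=
  ∃ h : ℕ → (E →L[𝕜] 𝕜), ∀ f : E →L[𝕜] 𝕜, ∃! a : ℕ → 𝕜, ∀ x : E,
    Tendsto (fun N => ∑ n ∈ range N, a n * h n x) atTop (𝓝 (f x))

/-- adding one dimension -/
theorem WSB.extend {𝕜 : Type} [RCLike 𝕜] {E E' : Type} [NormedAddCommGroup E] [NormedSpace 𝕜 E]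
    [NormedAddCommGroup E'] [NormedSpace 𝕜 E'] (P : E' →L[𝕜] E) (J : E →L[𝕜] E')
    (φ : E' →L[𝕜] 𝕜) (u : E') (hu : φ u = 1) (hPu : P u = 0) (hJ : ∀ y, φ (J y) = 0)
    (hPJ : ∀ y, P (J y) = y) (hx : ∀ x, x = J (P x) + φ x • u) (h : WSB 𝕜 E) : WSB 𝕜 E' := by
  obtain ⟨h, hh⟩ := h
  let H : ℕ → (E' →L[𝕜] 𝕜) := fun n => Nat.casesOn n φ fun m => (h m).comp P
  have key : ∀ (b : ℕ → 𝕜) (x : E') (N : ℕ), ∑ n ∈ range (N + 1), b n * H n x =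
      (∑ m ∈ range N, b (m + 1) * h m (P x)) + b 0 * φ x := by
    intro b x N
    rw [Finset.sum_range_succ']
    rfl
  refine ⟨H, fun f => ?_⟩
  obtain ⟨a, ha, hu'⟩ := hh (f.comp J)
  refine ⟨fun n => Nat.casesOn n (f u) a, fun x => ?_, fun b hb => ?_⟩
  · refine (tendsto_add_atTop_iff_nat 1).1 ?_
    have h1 : Tendsto (fun N => (∑ m ∈ range N, a m * h m (P x)) + f u * φ x) atTop
        (𝓝 ((f.comp J) (P x) + f u * φ x)) := (ha (P x)).add tendsto_const_nhds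
    have h2 : (f.comp J) (P x) + f u * φ x = f x := by
      conv_rhs => rw [hx x]
      rw [map_add, map_smul, smul_eq_mul, mul_comm]
      rfl
    rw [h2] at h1
    refine h1.congr fun N => ?_
    rw [key]
    rfl
  · have hb' : ∀ x : E', Tendsto (fun N => (∑ m ∈ range N, b (m + 1) * h m (P x)) + b 0 * φ x)
        atTop (𝓝 (f x)) := by
      intro x
      refine ((tendsto_add_atTop_iff_nat 1).2 (hb x)).congr fun N => ?_
      rw [key]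
    have h0 : b 0 = f u := by
      have h1 := hb' u
      rw [hPu, hu] at h1
      simp only [map_zero, mul_zero, Finset.sum_const_zero, zero_add, mul_one] at h1
      exact tendsto_nhds_unique tendsto_const_nhds h1
    have h2 : (fun m => b (m + 1)) = a := by
      refine hu' _ fun y => ?_
      have h1 := hb' (J y)
      rw [hPJ, hJ, mul_zero] at h1
      simpa using h1
    funext n
    cases n with
    | zero => exact h0
    | succ m => exact congrFun h2 m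

theorem WSB.congr {𝕜 : Type} [RCLike 𝕜] {E E' : Type} [NormedAddCommGroup E] [NormedSpace 𝕜 E]
    [NormedAddCommGroup E'] [NormedSpace 𝕜 E'] (T : E' ≃L[𝕜] E) (h : WSB 𝕜 E) : WSB 𝕜 E' := by
  obtain ⟨h, hh⟩ := h
  refine ⟨fun n => (h n).comp (T : E' →L[𝕜] E), fun f => ?_⟩
  obtain ⟨a, ha, hu⟩ := hh (f.comp (T.symm : E →L[𝕜] E'))
  refine ⟨a, fun x => ?_, fun b hb => hu b fun y => ?_⟩
  · have h1 := ha (T x)
    have e : (f.comp (T.symm : E →L[𝕜] E')) (T x) = f x := by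
      show f (T.symm (T x)) = f x
      rw [T.symm_apply_apply]
    rw [e] at h1
    exact h1
  · have h1 := hb (T.symm y)
    refine h1.congr fun N => Finset.sum_congr rfl fun n _ => ?_
    show b n * h n (T (T.symm y)) = b n * h n y
    rw [T.apply_symm_apply]

theorem WSB_EE (𝕜 : Type) [RCLike 𝕜] {T Γ : Type} [TopologicalSpace T] [DiscreteTopology T]
    (D : TD T Γ) (hD : D.Uniq) (e : ℕ ≃ T) (hmono : Monotone (fun n => D.rk (e n))) :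
    WSB 𝕜 (EE 𝕜 D) :=
  ⟨fun n => (hh 𝕜 D (e n)).comp (EE 𝕜 D).subtypeL, weakstar_basis D hD e hmono⟩

theorem WSB_Alg (𝕜 : Type) [RCLike 𝕜] {T Γ : Type} [TopologicalSpace T] [DiscreteTopology T]
    [Infinite Γ] (D : TD T Γ) (h : WSB 𝕜 (EE 𝕜 D)) : WSB 𝕜 (Alg 𝕜 D) := by
  obtain ⟨φ, h1, h0⟩ := exists_phi 𝕜 D
  let ι : Alg 𝕜 D →L[𝕜] (T →ᵇ 𝕜) := (Alg 𝕜 D).toSubalgebra.toSubmodule.subtypeL
  let P : Alg 𝕜 D →L[𝕜] EE 𝕜 D :=
    (ι - (φ.comp ι).smulRight (1 : T →ᵇ 𝕜)).codRestrict (EE 𝕜 D)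
      fun x => (mem_Alg_phi 𝕜 h1 h0).1 x.2
  let J : EE 𝕜 D →L[𝕜] Alg 𝕜 D :=
    (EE 𝕜 D).subtypeL.codRestrict (Alg 𝕜 D).toSubalgebra.toSubmodule
      fun x => EE_le_Alg 𝕜 D x.2
  refine WSB.extend P J (φ.comp ι) (1 : Alg 𝕜 D) h1 ?_ (fun y => h0 _ y.2) (fun y => ?_)
    (fun x => ?_) h
  · apply Subtype.ext
    show (1 : T →ᵇ 𝕜) - φ 1 • (1 : T →ᵇ 𝕜) = 0
    rw [h1, one_smul, sub_self]
  · apply Subtype.ext
    show (y : T →ᵇ 𝕜) - φ y • (1 : T →ᵇ 𝕜) = y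
    rw [h0 _ y.2, zero_smul, sub_zero]
  · apply Subtype.ext
    show (x : T →ᵇ 𝕜) = ((x : T →ᵇ 𝕜) - φ x • (1 : T →ᵇ 𝕜)) + φ x • (1 : T →ᵇ 𝕜)
    rw [sub_add_cancel]

end Pool.Agent.Y529.WK
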