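import Pool.Agent.Y529.WK.Base

/-!
# The spaces of continuous functions
-/

set_option autoImplicit false

namespace Pool.Agent.Y529.WK

open Filter Topology Finset BoundedContinuousFunction Pool.Agent.Helper499.WB

theorem finite_support_mem {T Γ : Type} [TopologicalSpace T] [DiscreteTopology T] (𝕜 : Type)
    [RCLike 𝕜] (D : TD T Γ) (x : T →ᵇ 𝕜) (hx : (Function.support x).Finite) : x ∈ Alg 𝕜 D := by
  classical
  refine EE_le_Alg 𝕜 D ?_
  have e : x = ∑ t ∈ hx.toFinset, x t • ind 𝕜 {t} := by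
    ext s
    rw [BoundedContinuousFunction.sum_apply]
    simp only [BoundedContinuousFunction.smul_apply, ind_apply, Set.mem_singleton_iff, smul_eq_mul,
      mul_ite, mul_one, mul_zero]
    rw [Finset.sum_ite_eq]
    by_cases h : x s = 0
    · simp [h]
    · simp [h]
  rw [e]
  exact Submodule.sum_mem _ fun t _ => Submodule.smul_mem _ _ (ind_t_mem 𝕜 D t)

theorem exists_CK {T Γ : Type} [TopologicalSpace T] [DiscreteTopology T] [Infinite Γ]
    (D : TD T Γ) (hΓ : ¬ Countable Γ) (h : WSB ℂ (EE ℂ D)) :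
    ∃ (K : Type) (_ : TopologicalSpace K) (_ : CompactSpace K) (_ : T2Space K),
      ¬ TopologicalSpace.SeparableSpace C(K, ℂ) ∧ WSB ℂ C(K, ℂ) := by
  have hcl : IsClosed (Alg ℂ D : Set (T →ᵇ ℂ)) := Alg_closed ℂ D
  let L : Alg ℂ D ≃ₗᵢ[ℂ] C(WeakDual.characterSpace ℂ (Alg ℂ D), ℂ) :=
    { (gelfandStarTransform (Alg ℂ D)).toAlgEquiv.toLinearEquiv with
      norm_map' := fun x => by
        have h := (gelfandTransform_isometry (Alg ℂ D)).dist_eq x 0
        rw [map_zero, dist_zero_right x] at h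
        exact (dist_zero_right (E := C(WeakDual.characterSpace ℂ (Alg ℂ D), ℂ)) _).symm.trans h }
  refine ⟨WeakDual.characterSpace ℂ (Alg ℂ D), inferInstance, inferInstance, inferInstance, ?_, ?_⟩
  · intro hs
    refine Alg_not_separable ℂ D hΓ ?_
    exact L.symm.surjective.denseRange.separableSpace L.symm.continuous
  · exact WSB.congr L.symm.toContinuousLinearEquiv (WSB_Alg ℂ D h)

end Pool.Agent.Y529.WK
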