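import Pool.Agent.Y529.WK.Gel

/-!
# The real spaces of continuous functions
-/

set_option autoImplicit false

namespace Pool.Agent.Y529.WK

open Filter Topology Finset BoundedContinuousFunction Pool.Agent.Helper499.WB

section
variable {K : Type} [TopologicalSpace K] [CompactSpace K]

/-- inclusion of the real functions -/
noncomputable def jj : C(K, ℝ) →L[ℝ] C(K, ℂ) := ContinuousLinearMap.compLeftContinuous ℝ K Complex.ofRealCLM

/-- real part -/
noncomputable def rr : C(K, ℂ) →L[ℝ] C(K, ℝ) := ContinuousLinearMap.compLeftContinuous ℝ K Complex.reCLM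

/-- imaginary part -/
noncomputable def ii : C(K, ℂ) →L[ℝ] C(K, ℝ) := ContinuousLinearMap.compLeftContinuous ℝ K Complex.imCLM

theorem jj_apply (F : C(K, ℝ)) (k : K) : jj F k = (F k : ℂ) := rfl

theorem rr_apply (G : C(K, ℂ)) (k : K) : rr G k = (G k).re := rfl

theorem ii_apply (G : C(K, ℂ)) (k : K) : ii G k = (G k).im := rfl

theorem rr_jj (F : C(K, ℝ)) : rr (jj F) = F := by
  ext k
  rw [rr_apply, jj_apply, Complex.ofReal_re]

theorem ii_jj (F : C(K, ℝ)) : ii (jj F) = 0 := by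
  ext k
  rw [ii_apply, jj_apply, Complex.ofReal_im]
  rfl

theorem decomp (G : C(K, ℂ)) : G = jj (rr G) + Complex.I • jj (ii G) := by
  ext k
  rw [ContinuousMap.add_apply, ContinuousMap.smul_apply, jj_apply, jj_apply, rr_apply, ii_apply,
    smul_eq_mul, mul_comm Complex.I]
  exact (Complex.re_add_im _).symm

theorem star_jj (F : C(K, ℝ)) : star (jj F) = jj F := by
  ext k
  rw [ContinuousMap.star_apply, jj_apply]
  exact Complex.conj_ofReal _

/-- complexification of a real functional -/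
noncomputable def cplx (f : C(K, ℝ) →L[ℝ] ℝ) : C(K, ℂ) →L[ℂ] ℂ where
  toFun := fun G => (f (rr G) : ℂ) + Complex.I * (f (ii G) : ℂ)
  map_add' := fun G H => by
    rw [map_add, map_add, map_add, map_add]
    push_cast
    ring
  map_smul' := fun c G => by
    have h1 : rr (c • G) = c.re • rr G - c.im • ii G := by
      ext k
      rw [rr_apply, ContinuousMap.smul_apply, ContinuousMap.sub_apply, ContinuousMap.smul_apply,
        ContinuousMap.smul_apply, rr_apply, ii_apply, smul_eq_mul, Complex.mul_re]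
      rfl
    have h2 : ii (c • G) = c.re • ii G + c.im • rr G := by
      ext k
      rw [ii_apply, ContinuousMap.smul_apply, ContinuousMap.add_apply, ContinuousMap.smul_apply,
        ContinuousMap.smul_apply, rr_apply, ii_apply, smul_eq_mul, Complex.mul_im]
      rfl
    rw [h1, h2, map_sub, map_add, map_smul, map_smul, map_smul, map_smul]
    simp only [smul_eq_mul, RingHom.id_apply]
    push_cast
    apply Complex.ext
    · simp
    · simp
  cont := by
    refine Continuous.add ?_ ?_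
    · exact Complex.continuous_ofReal.comp (f.continuous.comp rr.continuous)
    · exact continuous_const.mul (Complex.continuous_ofReal.comp (f.continuous.comp ii.continuous))

theorem cplx_apply (f : C(K, ℝ) →L[ℝ] ℝ) (G : C(K, ℂ)) :
    cplx f G = (f (rr G) : ℂ) + Complex.I * (f (ii G) : ℂ) := rfl

theorem WSB_real (H : ℕ → (C(K, ℂ) →L[ℂ] ℂ)) (hstar : ∀ n G, H n (star G) = star (H n G))
    (hH : ∀ f : C(K, ℂ) →L[ℂ] ℂ, ∃! a : ℕ → ℂ, ∀ x : C(K, ℂ),
      Tendsto (fun N => ∑ n ∈ range N, a n * H n x) atTop (𝓝 (f x))) : WSB ℝ C(K, ℝ) := by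
  let h : ℕ → (C(K, ℝ) →L[ℝ] ℝ) := fun n => Complex.reCLM.comp (((H n).restrictScalars ℝ).comp jj)
  have hh : ∀ n F, H n (jj F) = (h n F : ℂ) := by
    intro n F
    have h1 := hstar n (jj F)
    rw [star_jj] at h1
    exact (Complex.conj_eq_iff_re.1 h1.symm).symm
  have hdec : ∀ n G, H n G = (h n (rr G) : ℂ) + Complex.I * (h n (ii G) : ℂ) := by
    intro n G
    conv_lhs => rw [decomp G]
    rw [map_add, map_smul, hh, hh, smul_eq_mul]
  refine ⟨h, fun f => ?_⟩
  obtain ⟨a, ha, hu⟩ := hH (cplx f)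
  have huniq : ∀ b : ℕ → ℝ, (∀ F : C(K, ℝ), Tendsto (fun N => ∑ n ∈ range N, b n * h n F) atTop
      (𝓝 (f F))) → (fun n => (b n : ℂ)) = a := by
    intro b hb
    refine hu _ fun G => ?_
    have h1 := (Complex.continuous_ofReal.tendsto _).comp (hb (rr G))
    have h2 := (Complex.continuous_ofReal.tendsto _).comp (hb (ii G))
    have h3 := h1.add (h2.const_mul Complex.I)
    rw [cplx_apply]
    refine h3.congr fun N => ?_
    simp only [Function.comp_apply]
    push_cast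
    rw [Finset.mul_sum, ← Finset.sum_add_distrib]
    refine Finset.sum_congr rfl fun n _ => ?_
    rw [hdec]
    ring
  refine ⟨fun n => (a n).re, fun F => ?_, fun b hb => ?_⟩
  · have h1 := (Complex.continuous_re.tendsto _).comp (ha (jj F))
    rw [cplx_apply, rr_jj, ii_jj, map_zero] at h1
    simp only [Complex.ofReal_zero, mul_zero, add_zero, Complex.ofReal_re] at h1
    refine h1.congr fun N => ?_
    simp only [Function.comp_apply, Complex.re_sum]
    refine Finset.sum_congr rfl fun n _ => ?_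
    rw [hh, Complex.re_mul_ofReal]
  · have h1 := huniq b hb
    funext n
    rw [← h1]
    exact (Complex.ofReal_re _).symm

end

theorem hh_star {T Γ : Type} [TopologicalSpace T] [DiscreteTopology T] (D : TD T Γ) (t : T)
    (x : T →ᵇ ℂ) : hh ℂ D t (star x) = star (hh ℂ D t x) := by
  rw [hh_apply, hh_apply, star_sub]
  congr 1
  cases D.p t with
  | none => exact (star_zero ℂ).symm
  | some s => rfl

/-- adding one dimension, with the functionals made explicit -/
theorem extend_explicit {𝕜 : Type} [RCLike 𝕜] {E E' : Type} [NormedAddCommGroup E]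
    [NormedSpace 𝕜 E] [NormedAddCommGroup E'] [NormedSpace 𝕜 E'] (P : E' →L[𝕜] E)
    (J : E →L[𝕜] E') (φ : E' →L[𝕜] 𝕜) (u : E') (hu : φ u = 1) (hPu : P u = 0)
    (hJ : ∀ y, φ (J y) = 0) (hPJ : ∀ y, P (J y) = y) (hx : ∀ x, x = J (P x) + φ x • u)
    (h : ℕ → (E →L[𝕜] 𝕜)) (hh : ∀ f : E →L[𝕜] 𝕜, ∃! a : ℕ → 𝕜, ∀ x : E,
      Tendsto (fun N => ∑ n ∈ range N, a n * h n x) atTop (𝓝 (f x))) :
    ∃ H : ℕ → (E' →L[𝕜] 𝕜), H 0 = φ ∧ (∀ m, H (m + 1) = (h m).comp P) ∧
      ∀ f : E' →L[𝕜] 𝕜, ∃! a : ℕ → 𝕜, ∀ x : E',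
        Tendsto (fun N => ∑ n ∈ range N, a n * H n x) atTop (𝓝 (f x)) := by
  let H : ℕ → (E' →L[𝕜] 𝕜) := fun n => Nat.casesOn n φ fun m => (h m).comp P
  have key : ∀ (b : ℕ → 𝕜) (x : E') (N : ℕ), ∑ n ∈ range (N + 1), b n * H n x =
      (∑ m ∈ range N, b (m + 1) * h m (P x)) + b 0 * φ x := by
    intro b x N
    rw [Finset.sum_range_succ']
    rfl
  refine ⟨H, rfl, fun m => rfl, fun f => ?_⟩
  obtain ⟨a, ha, hu'⟩ := hh (f.comp J)
  refine ⟨fun n => Nat.casesOn n (f u) a, fun x => ?_, fun b hb => ?_⟩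
  · refine (tendsto_add_atTop_iff_nat 1).1 ?_
    have h1 : Tendsto (fun N => (∑ m ∈ range N, a m * h m (P x)) + f u * φ x) atTop
        (𝓝 ((f.comp J) (P x) + f u * φ x)) := (ha (P x)).add tendsto_const_nhds
    have h2 : (f.comp J) (P x) + f u * φ x = f x := by
      conv_rhs => rw [hx x]
      rw [map_add, map_smul, smul_eq_mul, mul_comm]
      rfl
    rw [h2] at h1
    refine h1.congr fun N => ?_
    rw [key]
    rfl
  · have hb' : ∀ x : E', Tendsto (fun N => (∑ m ∈ range N, b (m + 1) * h m (P x)) + b 0 * φ x)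
        atTop (𝓝 (f x)) := by
      intro x
      refine ((tendsto_add_atTop_iff_nat 1).2 (hb x)).congr fun N => ?_
      rw [key]
    have h0 : b 0 = f u := by
      have h1 := hb' u
      rw [hPu, hu] at h1
      simp only [map_zero, mul_zero, Finset.sum_const_zero, zero_add, mul_one] at h1
      exact tendsto_nhds_unique tendsto_const_nhds h1
    have h2 : (fun m => b (m + 1)) = a := by
      refine hu' _ fun y => ?_
      have h1 := hb' (J y)
      rw [hPJ, hJ, mul_zero] at h1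
      simpa using h1
    funext n
    cases n with
    | zero => exact h0
    | succ m => exact congrFun h2 m

theorem Alg_star {T Γ : Type} [TopologicalSpace T] [DiscreteTopology T] [Infinite Γ]
    (D : TD T Γ) (e : ℕ → T)
    (hw : ∀ f : EE ℂ D →L[ℂ] ℂ, ∃! a : ℕ → ℂ, ∀ x : EE ℂ D, Tendsto (fun N => ∑ n ∈ range N,
      a n * ((hh ℂ D (e n)).comp (EE ℂ D).subtypeL) x) atTop (𝓝 (f x))) :
    ∃ H : ℕ → (Alg ℂ D →L[ℂ] ℂ), (∀ n x, H n (star x) = star (H n x)) ∧
      ∀ f : Alg ℂ D →L[ℂ] ℂ, ∃! a : ℕ → ℂ, ∀ x : Alg ℂ D,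
        Tendsto (fun N => ∑ n ∈ range N, a n * H n x) atTop (𝓝 (f x)) := by
  obtain ⟨φ, h1, h0⟩ := exists_phi ℂ D
  let ι : Alg ℂ D →L[ℂ] (T →ᵇ ℂ) := (Alg ℂ D).toSubalgebra.toSubmodule.subtypeL
  let P : Alg ℂ D →L[ℂ] EE ℂ D :=
    (ι - (φ.comp ι).smulRight (1 : T →ᵇ ℂ)).codRestrict (EE ℂ D)
      fun x => (mem_Alg_phi ℂ h1 h0).1 x.2
  let J : EE ℂ D →L[ℂ] Alg ℂ D :=
    (EE ℂ D).subtypeL.codRestrict (Alg ℂ D).toSubalgebra.toSubmodule
      fun x => EE_le_Alg ℂ D x.2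
  obtain ⟨H, hH0, hHs, hH⟩ := extend_explicit P J (φ.comp ι) (1 : Alg ℂ D) h1 (by
      apply Subtype.ext
      show (1 : T →ᵇ ℂ) - φ 1 • (1 : T →ᵇ ℂ) = 0
      rw [h1, one_smul, sub_self]) (fun y => h0 _ y.2) (fun y => by
      apply Subtype.ext
      show (y : T →ᵇ ℂ) - φ y • (1 : T →ᵇ ℂ) = y
      rw [h0 _ y.2, zero_smul, sub_zero]) (fun x => by
      apply Subtype.ext
      show (x : T →ᵇ ℂ) = ((x : T →ᵇ ℂ) - φ x • (1 : T →ᵇ ℂ)) + φ x • (1 : T →ᵇ ℂ)
      rw [sub_add_cancel]) _ hw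
  have hφ : ∀ x : T →ᵇ ℂ, x ∈ Alg ℂ D → φ (star x) = star (φ x) := by
    intro x hx
    have h2 := EE_star ℂ D ((mem_Alg_phi ℂ h1 h0).1 hx)
    rw [star_sub, star_smul, star_one] at h2
    have h3 := h0 _ h2
    rwa [map_sub, map_smul, h1, smul_eq_mul, mul_one, sub_eq_zero] at h3
  refine ⟨H, fun n x => ?_, hH⟩
  cases n with
  | zero =>
    rw [hH0]
    exact hφ x x.2
  | succ m =>
    rw [hHs]
    show hh ℂ D (e m) (star (x : T →ᵇ ℂ) - φ (star (x : T →ᵇ ℂ)) • (1 : T →ᵇ ℂ)) =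
      star (hh ℂ D (e m) ((x : T →ᵇ ℂ) - φ x • (1 : T →ᵇ ℂ)))
    rw [← hh_star, hφ x x.2, star_sub, star_smul, star_one]

theorem congr_explicit {𝕜 : Type} [RCLike 𝕜] {E E' : Type} [NormedAddCommGroup E]
    [NormedSpace 𝕜 E] [NormedAddCommGroup E'] [NormedSpace 𝕜 E'] (T : E' ≃L[𝕜] E)
    (h : ℕ → (E →L[𝕜] 𝕜)) (hh : ∀ f : E →L[𝕜] 𝕜, ∃! a : ℕ → 𝕜, ∀ x : E,
      Tendsto (fun N => ∑ n ∈ range N, a n * h n x) atTop (𝓝 (f x))) :
    ∀ f : E' →L[𝕜] 𝕜, ∃! a : ℕ → 𝕜, ∀ x : E', Tendsto (fun N => ∑ n ∈ range N,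
      a n * ((h n).comp (T : E' →L[𝕜] E)) x) atTop (𝓝 (f x)) := by
  intro f
  obtain ⟨a, ha, hu⟩ := hh (f.comp (T.symm : E →L[𝕜] E'))
  refine ⟨a, fun x => ?_, fun b hb => hu b fun y => ?_⟩
  · have h1 := ha (T x)
    have e : (f.comp (T.symm : E →L[𝕜] E')) (T x) = f x := by
      show f (T.symm (T x)) = f x
      rw [T.symm_apply_apply]
    rw [e] at h1
    exact h1
  · have h1 := hb (T.symm y)
    refine h1.congr fun N => Finset.sum_congr rfl fun n _ => ?_
    show b n * h n (T (T.symm y)) = b n * h n y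
    rw [T.apply_symm_apply]

theorem exists_CK_real {T Γ : Type} [TopologicalSpace T] [DiscreteTopology T] [Infinite Γ]
    (D : TD T Γ) [hcl : IsClosed (Alg ℂ D : Set (T →ᵇ ℂ))] (hΓ : ¬ Countable Γ) (e : ℕ → T)
    (hw : ∀ f : EE ℂ D →L[ℂ] ℂ, ∃! a : ℕ → ℂ, ∀ x : EE ℂ D, Tendsto (fun N => ∑ n ∈ range N,
      a n * ((hh ℂ D (e n)).comp (EE ℂ D).subtypeL) x) atTop (𝓝 (f x))) :
    (¬ TopologicalSpace.SeparableSpace C(WeakDual.characterSpace ℂ (Alg ℂ D), ℂ) ∧
      WSB ℂ C(WeakDual.characterSpace ℂ (Alg ℂ D), ℂ)) ∧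
      ¬ TopologicalSpace.SeparableSpace C(WeakDual.characterSpace ℂ (Alg ℂ D), ℝ) ∧
      WSB ℝ C(WeakDual.characterSpace ℂ (Alg ℂ D), ℝ) := by
  let L : Alg ℂ D ≃ₗᵢ[ℂ] C(WeakDual.characterSpace ℂ (Alg ℂ D), ℂ) :=
    { (gelfandStarTransform (Alg ℂ D)).toAlgEquiv.toLinearEquiv with
      norm_map' := fun x => by
        have h := (gelfandTransform_isometry (Alg ℂ D)).dist_eq x 0
        rw [map_zero, dist_zero_right x] at h
        exact (dist_zero_right (E := C(WeakDual.characterSpace ℂ (Alg ℂ D), ℂ)) _).symm.trans h }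
  obtain ⟨H, hs, hH⟩ := Alg_star D e hw
  have hLs : ∀ G, L.symm (star G) = star (L.symm G) :=
    fun G => map_star (gelfandStarTransform (Alg ℂ D)).symm G
  have hns : ¬ TopologicalSpace.SeparableSpace C(WeakDual.characterSpace ℂ (Alg ℂ D), ℂ) := by
    intro hs
    refine Alg_not_separable ℂ D hΓ ?_
    exact L.symm.surjective.denseRange.separableSpace L.symm.continuous
  have hH' := congr_explicit (E := Alg ℂ D)
    (E' := C(WeakDual.characterSpace ℂ (Alg ℂ D), ℂ)) L.symm.toContinuousLinearEquiv H hH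
  refine ⟨⟨hns, _, hH'⟩, ?_, ?_⟩
  · intro hr
    refine hns ?_
    have hc : Continuous fun p : C(WeakDual.characterSpace ℂ (Alg ℂ D), ℝ) ×
        C(WeakDual.characterSpace ℂ (Alg ℂ D), ℝ) => jj p.1 + Complex.I • jj p.2 := by
      have c1 := jj.continuous.comp (continuous_fst (X := C(WeakDual.characterSpace ℂ (Alg ℂ D), ℝ))
        (Y := C(WeakDual.characterSpace ℂ (Alg ℂ D), ℝ)))
      have c2 := jj.continuous.comp (continuous_snd (X := C(WeakDual.characterSpace ℂ (Alg ℂ D), ℝ))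
        (Y := C(WeakDual.characterSpace ℂ (Alg ℂ D), ℝ)))
      have c3 := c2.const_smul Complex.I
      exact c1.add c3
    have hsur : Function.Surjective fun p : C(WeakDual.characterSpace ℂ (Alg ℂ D), ℝ) ×
        C(WeakDual.characterSpace ℂ (Alg ℂ D), ℝ) => jj p.1 + Complex.I • jj p.2 :=
      fun G => ⟨(rr G, ii G), (decomp G).symm⟩
    exact hsur.denseRange.separableSpace hc
  · refine WSB_real _ (fun n G => ?_) hH'
    show H n (L.symm (star G)) = star (H n (L.symm G))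
    rw [hLs, hs]

end Pool.Agent.Y529.WK
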