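import Pool.Agent.Y529.WK.Real

/-!
# The compact space is separable
-/

set_option autoImplicit false

namespace Pool.Agent.Y529.WK

open Filter Topology Finset BoundedContinuousFunction Pool.Agent.Helper499.WB

/-- evaluation at a point -/
noncomputable def evHom {T Γ : Type} [TopologicalSpace T] [DiscreteTopology T] (D : TD T Γ)
    (t : T) : Alg ℂ D →ₐ[ℂ] ℂ where
  toFun := fun x => (x : T →ᵇ ℂ) t
  map_one' := rfl
  map_mul' := fun _ _ => rfl
  map_zero' := rfl
  map_add' := fun _ _ => rfl
  commutes' := fun r => by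
    show (algebraMap ℂ (T →ᵇ ℂ) r) t = r
    rw [Algebra.algebraMap_eq_smul_one]
    show r * 1 = r
    exact mul_one r

theorem separable_characterSpace {T Γ : Type} [TopologicalSpace T] [DiscreteTopology T]
    [Countable T] [Infinite Γ] (D : TD T Γ) [hcl : IsClosed (Alg ℂ D : Set (T →ᵇ ℂ))] :
    TopologicalSpace.SeparableSpace (WeakDual.characterSpace ℂ (Alg ℂ D)) := by
  let ev : T → WeakDual.characterSpace ℂ (Alg ℂ D) := fun t =>
    WeakDual.CharacterSpace.equivAlgHom.symm (evHom D t)
  have hev : ∀ t (x : Alg ℂ D), ev t x = (x : T →ᵇ ℂ) t := fun t x => rfl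
  refine ⟨Set.range ev, Set.countable_range ev, ?_⟩
  rw [dense_iff_closure_eq, Set.eq_univ_iff_forall]
  intro k
  by_contra hk
  obtain ⟨F, hF0, hF1, _⟩ := exists_continuous_zero_one_of_isClosed
    (isClosed_closure (s := Set.range ev)) (isClosed_singleton (x := k))
    (Set.disjoint_singleton_right.2 hk)
  obtain ⟨x, hx⟩ : ∃ x, gelfandStarTransform (Alg ℂ D) x = jj F :=
    (gelfandStarTransform (Alg ℂ D)).surjective (jj F)
  have hx0 : x = 0 := by
    apply Subtype.ext
    ext t
    have h1 : (gelfandStarTransform (Alg ℂ D) x) (ev t) = ev t x := rfl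
    rw [hx, jj_apply, hF0 (subset_closure ⟨t, rfl⟩), hev] at h1
    rw [← h1]
    simp
  rw [hx0, map_zero] at hx
  have h2 : jj F k = 0 := by
    rw [← hx]
    rfl
  rw [jj_apply, hF1 rfl] at h2
  simp at h2

end Pool.Agent.Y529.WK
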